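import Pool.Agent.Helper234_Grid.Topo

/-!
# Topological graphs without natural `(k, l)`-grids have a linear number of edges

This answers positively the question of Ackerman, Fox, Pach and Suk (MP_b77b0a_co, Q1), for all
topological graphs, simple or not.

Outline of the proof. (1) By the van Kampen obstruction for `K_{3,3}`, a supersaturation argument
and the theorem of Kővári, Sós and Turán, a drawing without natural `(t, t)`-grid contains no
model of a complete graph `K_h` with branch sets of radius at most `L` as soon as `h` is larger
than a fixed polynomial in `L`. (2) By the argument of Plotkin, Rao and Smith, such graphs have
vertex separators of size `O(n / log² n)`. (3) Splitting along the separators repeatedly gives a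
linear number of edges.
-/

set_option autoImplicit false

namespace Pool.Agent.Results.MP_b77b0a_co.LinearBound

open Pool.Agent.Helper234_Grid

/-- For all `k` and `l` there is a constant `c` such that every topological graph on `n` vertices
without natural `(k, l)`-grid has at most `c * n` edges. -/
theorem result : ∀ k l : ℕ, ∃ c : ℕ, ∀ (V : Type) [Fintype V] (D : TopologicalGraph V),
    ¬ D.HasNaturalGrid k l → D.graph.edgeSet.ncard ≤ c * Fintype.card V :=
  main

end Pool.Agent.Results.MP_b77b0a_co.LinearBound
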